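import Pool.Agent.L0h27.PP.AsymThick

/-!
# Halving lines of generalized configurations: all the middle positions of one allowable sequence

For all `n` and `T` with `n ≥ C T` there is a simple allowable sequence of `n` elements in which there are at least
`n * (n / T) ^ (1 / 50)` switches at each of the positions within `T` of the middle. The allowable sequence of a planar
point set (Goodman and Pollack) records the permutations of its orthogonal projections on a rotating line; its switches
in the middle correspond to the halving lines and the switches at the other positions to the `j`-edges.

The sequence is the sequence of `MP_a08d0a_co.PseudolineLevels` with every element replaced by `2 T` elements which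
are exchanged as a block; the number of switches at a position of any word is at least the number of the elements
which cross the position upwards.
-/

set_option autoImplicit false

namespace Pool.Agent.Results.MP_e17eac_co.AllowableSequences

open Pool.Agent.L0h27.PP

theorem result : ∃ C : ℕ, ∀ m T : ℕ, 1 ≤ T → C * T ≤ m + 1 → ∃ w : List (Fin m), IsAllowable w ∧
    ∀ p : Fin m, 2 * ((p : ℕ) + 1) ≤ m + 1 + 2 * T → m + 1 ≤ 2 * ((p : ℕ) + 1) + 2 * T →
      ((m + 1 : ℕ) : ℝ) * (((m + 1 : ℕ) : ℝ) / T) ^ ((1 : ℝ) / 50) ≤ w.count p := main3

end Pool.Agent.Results.MP_e17eac_co.AllowableSequences
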