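import Pool.Agent.L0h27.FS2.Layers

/-!
# Halving lines and convex layers: the sharp constant

Definitions. In `Pool/Agent/W296/HL3.lean` and `Pool/Agent/W296/HL4.lean`
(namespace `Pool.Agent.W296.HL`):

* `Line a b c = {p | a * p.1 + b * p.2 = c}`,
* `GeneralPosition P`: no three distinct points of `P` on a common line,
* `IsBisector P L`: `L` is a line through two distinct points of `P` with exactly
  `|P| / 2 - 1` points of `P` on each open side,
* `peel S`: the points of `S` which lie in the convex hull of the other points of `S`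
  (the vertices of the convex hull are removed),
* `layers P`: the least `m` with `peel^[m] P = ∅`, the number of convex layers.

In `Pool/Agent/TH511/HLC/Part.lean` (namespace `Pool.Agent.TH511.HLC`):

* `ConvexPosition A`: no point of the finite set `A` is in the convex hull of the other points.
-/

set_option autoImplicit false

open Finset

namespace Pool.Agent.Results.MP_e17eac_co.ConvexLayersSharp

open Pool.Agent.W296.HL Pool.Agent.TH511.HLC

/-- `P` is covered by `c` sets in convex position. -/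
def Covered (c : ℕ) (P : Finset (ℝ × ℝ)) : Prop :=
  ∃ A : Fin c → Finset (ℝ × ℝ), (∀ i, ConvexPosition (A i)) ∧ ∀ p ∈ P, ∃ i, p ∈ A i

/-- **The maximal number of bisectors of `n` points in general position with at most `c` convex
layers is `(c - 1/2 + o(1)) n`**, and so is the maximum over the `n`-point sets covered by `c` sets
in convex position. The lower bound is uniform in the range `(2 c C) ^ (2 c) ≤ n / 2`, that is, up
to `c` of order `log n / log log n`. -/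
theorem result :
    (∀ c C m : ℕ, 1 ≤ c → 1 ≤ C → (2 * c * C) ^ (2 * c) ≤ m →
      ∃ P : Finset (ℝ × ℝ), GeneralPosition P ∧ #P = 2 * m ∧ layers P ≤ c ∧ Covered c P ∧
        (1 - 2 / (C : ℝ)) * ((c : ℝ) - 1 / 2) * #P ≤ {L | IsBisector P L}.ncard) ∧
    (∀ c : ℕ, 1 ≤ c → ∀ ε : ℝ, 0 < ε → ∃ n₀ : ℕ, ∀ n ≥ n₀, Even n →
      (∀ P : Finset (ℝ × ℝ), GeneralPosition P → #P = n → layers P ≤ c ∨ Covered c P →
        ({L | IsBisector P L}.ncard : ℝ) ≤ ((c : ℝ) - 1 / 2) * n) ∧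
      (∃ P : Finset (ℝ × ℝ), GeneralPosition P ∧ #P = n ∧ layers P ≤ c ∧ Covered c P ∧
        ((c : ℝ) - 1 / 2 - ε) * n ≤ {L | IsBisector P L}.ncard)) := by
  classical
  have hlow : ∀ c C m : ℕ, 1 ≤ c → 1 ≤ C → (2 * c * C) ^ (2 * c) ≤ m →
      ∃ P : Finset (ℝ × ℝ), GeneralPosition P ∧ #P = 2 * m ∧ layers P ≤ c ∧ Covered c P ∧
        (1 - 2 / (C : ℝ)) * ((c : ℝ) - 1 / 2) * #P ≤ {L | IsBisector P L}.ncard := by
    intro c C m hc hC hm
    have hcC : c ≤ c * C := Nat.le_mul_of_pos_right _ hC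
    have hN2 : 2 ≤ 2 * c * C := by
      rw [mul_assoc]; omega
    have hN0 : 0 < 2 * c * C := by omega
    have e1 : (2 * c * C) ^ (2 * c) = (2 * c * C) ^ (2 * c - 2) * (2 * c * C) ^ 2 := by
      rw [← pow_add]; congr 1; omega
    have hp1 : 1 ≤ (2 * c * C) ^ (2 * c - 2) := Nat.one_le_pow _ _ hN0
    have hsq4 : 4 ≤ (2 * c * C) ^ 2 := by nlinarith
    have hm1 : (2 * c * C) ^ (2 * c - 2) + 1 ≤ m := by
      refine le_trans ?_ hm
      rw [e1]
      nlinarith
    obtain ⟨P, g1, g2, g3, g4, g5⟩ := Pool.Agent.L0h27.FS2.layers_lower c (2 * c * C) m hc hN2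
      (by rw [mul_assoc]; omega) hm1
    refine ⟨P, g1, g2, g3, g4, le_trans ?_ g5⟩
    have hC' : (1:ℝ) ≤ C := by exact_mod_cast hC
    have hc' : (1:ℝ) ≤ c := by exact_mod_cast hc
    have hm' : (2 * (c:ℝ) * C) ^ (2 * c - 2) * (2 * (c:ℝ) * C) ^ 2 ≤ m := by
      rw [e1] at hm
      exact_mod_cast hm
    set p := (2 * (c:ℝ) * C) ^ (2 * c - 2) with hp
    have hp1' : (1:ℝ) ≤ p := by
      rw [hp]
      exact_mod_cast hp1
    have hCc : (C:ℝ) ≤ c * C := by nlinarith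
    have hsq : 4 * (C:ℝ) ≤ (2 * (c:ℝ) * C) ^ 2 := by nlinarith
    have h1 : p ≤ m / (4 * C) := by
      rw [le_div_iff₀ (by positivity)]
      have : p * (4 * C) ≤ p * (2 * (c:ℝ) * C) ^ 2 := mul_le_mul_of_nonneg_left hsq (by linarith)
      linarith
    have h2 : (1:ℝ) ≤ m / (4 * C) := hp1'.trans h1
    have e2 : (((2 * c * C : ℕ) : ℝ)) ^ (2 * c - 2) = p := by rw [hp]; push_cast; rfl
    rw [e2, g2]
    have h3 : (1 - 5 / (8 * (C:ℝ))) * m ≤ m - 1 - 3 / 2 * p := by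
      have e3 : (1 - 5 / (8 * (C:ℝ))) * m = m - 5 / 2 * (m / (4 * C)) := by
        field_simp
        ring
      rw [e3]
      linarith
    have h4 : 1 - 1 / (2 * (C:ℝ)) ≤ 1 - ((c:ℝ) - 1) / ((2 * c * C : ℕ) : ℝ) := by
      have : ((c:ℝ) - 1) / ((2 * c * C : ℕ) : ℝ) ≤ 1 / (2 * (C:ℝ)) := by
        push_cast
        rw [div_le_div_iff₀ (by positivity) (by positivity)]
        nlinarith
      linarith
    have h5 : 0 ≤ 1 - 1 / (2 * (C:ℝ)) := by
      rw [sub_nonneg, div_le_one (by positivity)]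
      linarith
    have h6 : 0 ≤ 1 - 5 / (8 * (C:ℝ)) := by
      rw [sub_nonneg, div_le_one (by positivity)]
      linarith
    have hm0 : (0:ℝ) ≤ m := by positivity
    have h7 : (2 * (c:ℝ) - 1) * (1 - 1 / (2 * (C:ℝ))) * ((1 - 5 / (8 * (C:ℝ))) * m) ≤
        (2 * (c:ℝ) - 1) * (1 - ((c:ℝ) - 1) / ((2 * c * C : ℕ) : ℝ)) *
          ((1 - 5 / (8 * (C:ℝ))) * m) := by
      apply mul_le_mul_of_nonneg_right _ (mul_nonneg h6 hm0)
      exact mul_le_mul_of_nonneg_left h4 (by linarith)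
    have h8 : (2 * (c:ℝ) - 1) * (1 - ((c:ℝ) - 1) / ((2 * c * C : ℕ) : ℝ)) *
          ((1 - 5 / (8 * (C:ℝ))) * m) ≤
        (2 * (c:ℝ) - 1) * (1 - ((c:ℝ) - 1) / ((2 * c * C : ℕ) : ℝ)) * (m - 1 - 3 / 2 * p) :=
      mul_le_mul_of_nonneg_left h3 (mul_nonneg (by linarith) (h5.trans h4))
    refine le_trans ?_ (h7.trans h8)
    have h9 : 1 - 2 / (C:ℝ) ≤ (1 - 1 / (2 * (C:ℝ))) * (1 - 5 / (8 * (C:ℝ))) := by
      have hu : 0 < 1 / (C:ℝ) := by positivity
      have e3 : 2 / (C:ℝ) = 2 * (1 / C) := by ring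
      have e4 : 1 / (2 * (C:ℝ)) = 1 / 2 * (1 / C) := by field_simp
      have e5 : 5 / (8 * (C:ℝ)) = 5 / 8 * (1 / C) := by field_simp
      rw [e3, e4, e5]
      nlinarith [mul_pos hu hu]
    have h10 : 0 ≤ (2 * (c:ℝ) - 1) * m := mul_nonneg (by linarith) hm0
    have h11 := mul_le_mul_of_nonneg_right h9 h10
    push_cast
    calc (1 - 2 / (C:ℝ)) * ((c:ℝ) - 1 / 2) * (2 * m) =
          (1 - 2 / (C:ℝ)) * ((2 * (c:ℝ) - 1) * m) := by ring
      _ ≤ _ := h11
      _ = _ := by ring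
  refine ⟨hlow, ?_⟩
  intro c hc ε hε
  have hc' : (1:ℝ) ≤ c := by exact_mod_cast hc
  obtain ⟨C, hC⟩ := exists_nat_gt (2 * (c:ℝ) / ε)
  have hC0 : (0:ℝ) < C := lt_of_le_of_lt (by positivity) hC
  have hC1 : 1 ≤ C := by exact_mod_cast hC0
  refine ⟨2 * (2 * c * C) ^ (2 * c), fun n hn hE => ⟨?_, ?_⟩⟩
  · intro P hP hPn hlc
    have hEP : Even #P := by rw [hPn]; exact hE
    have h1 : 2 * {L | IsBisector P L}.ncard + #P ≤ 2 * c * #P := by
      rcases hlc with hl | ⟨A, hA, hcov⟩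
      · have h2 := layer_bound' (gen_of_gp hP) hEP
        have h3 : 2 * layers P * #P ≤ 2 * c * #P :=
          Nat.mul_le_mul_right _ (Nat.mul_le_mul_left _ hl)
        exact h2.trans h3
      · exact cover' (gen_of_gp hP) hEP A hA hcov
    have h4 : 2 * ({L | IsBisector P L}.ncard : ℝ) + #P ≤ 2 * c * #P := by exact_mod_cast h1
    rw [hPn] at h4
    linarith
  · obtain ⟨m, rfl⟩ := hE
    obtain ⟨P, g1, g2, g3, g4, g5⟩ := hlow c C m hc hC1 (by omega)
    refine ⟨P, g1, by omega, g3, g4, le_trans ?_ g5⟩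
    rw [g2]
    have e : ((m + m : ℕ) : ℝ) = ((2 * m : ℕ) : ℝ) := by push_cast; ring
    rw [e]
    apply mul_le_mul_of_nonneg_right _ (by positivity)
    have h6 : 2 / (C:ℝ) * ((c:ℝ) - 1 / 2) ≤ ε := by
      rw [div_lt_iff₀ hε] at hC
      rw [div_mul_eq_mul_div, div_le_iff₀ hC0]
      linarith
    linarith

end Pool.Agent.Results.MP_e17eac_co.ConvexLayersSharp
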