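import Pool.Agent.L0h67.HL.Low4
import Pool.Agent.L0h67.HL.PertF

/-!
# Halving lines: random points, random subsets of arbitrary sets, and the worst case

1. For `n` independent random points of the plane, `n` even, with an arbitrary common law without
   atoms (lines may have a positive mass), the expected number of bisectors is `O(n ^ (7/6))`.
2. Let `S` be ANY set of `N` points (not necessarily in general position) and `n < N` even.  Then the
   `n`-element subsets of `S` have on average `O(√(N / (N - n)) n ^ (7/6))` bisectors.  So no point set keeps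
   more than `O(N ^ (7/6) / √δ)` bisectors after the deletion of `δ N` random points.
3. Conversely, let `S` be any set of `n` points in general position, `n ≥ 4` even, with `b`
   bisectors.  Then there is a law, for which all lines are null sets, such that `n ^ 2` independent random points have on
   average at least `n b / 40` bisectors, and for every `m ≥ n ^ 2` there is a set of `m` points in
   general position whose `n ^ 2`-element subsets have on average at least `n b / 40` bisectors.
4. So the worst case can be reduced to the average case: if the expected number of bisectors of `n`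
   random points is at most `B n ^ α` for all laws for which lines are null sets and all even
   `n ≥ 4`, then every set of `n` points in general position has at most `40 B n ^ (2 α - 1)` bisectors.  For `α = 7/6` this is the bound
   `O(n ^ (4/3))` of Dey; an exponent below `7/6` in 1 or 2 would improve it.
5. In particular the bound `n ^ (1 + ε)`, for all `ε > 0`, holds for all sets of `n` points in general
   position if and only if it holds for the expected number of bisectors of `n` random points, for
   all laws for which lines are null sets.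
6. With the lower bound of the starting library for the worst case: for all large even `n` there is a
   law, for which all lines are null sets, such that `n ^ 2` random points have on average at least
   `n ^ (2 + exp (-3 √(log log n))) / 40` bisectors.

For laws for which lines are null sets part 1 comes from the theorem on levels of random line
arrangements of the starting library by duality.  For part 2 it is applied to the uniform law on tiny discs around the points of `S`;
samples with repetitions are used, and the hypergeometric distribution is compared with the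
binomial one: `C(A,k) C(B,k) ≤ √(M / (M - 2 k)) C(M,2k) C(2k,k) (A B / M ^ 2) ^ k`, `M = A + B`.
Sets which are not in general position are moved a little; no bisector of an even subset is lost.
The general case of part 1 follows, since `n` points with an arbitrary law are a random subset of
`2 n + 1` such points.

For part 3 the law is uniform on tiny discs around the points of `S`.  If `a`, `b` is a halving pair of
`S`, then for ALL points `x`, `y` of the two discs both sides of the line `x y` have mass at least
`1 / 2 - 1 / n`, so that `n ^ 2 - 2` further random points are halved by it with probability at least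
`c / n`.
-/

set_option autoImplicit false

namespace Pool.Agent.Results.MP_e17eac_co.RandomPointSets

open Finset MeasureTheory Pool.Agent.R117.KR Pool.Agent.L0h67.HL
open scoped ENNReal

open scoped Classical in
/-- the worst case from the average case -/
theorem worst_of_average {B α : ℝ} (hB : 0 ≤ B)
    (hall : ∀ (μ : Measure (ℝ × ℝ)) [IsProbabilityMeasure μ],
        (∀ a b c : ℝ, (a ≠ 0 ∨ b ≠ 0) → μ {y | a * y.1 + b * y.2 = c} = 0) →
        ∀ n : ℕ, Even n → 4 ≤ n →
        ∫⁻ X, ({L | IsBisector (univ.image X) L}.ncard : ℝ≥0∞) ∂Measure.pi (fun _ : Fin n => μ) ≤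
          ENNReal.ofReal (B * (n : ℝ) ^ α))
    {S : Finset (ℝ × ℝ)} (hS : NoThree S) (hn : Even S.card) (h4 : 4 ≤ S.card) :
    ({L | IsBisector S L}.ncard : ℝ) ≤ 40 * B * (S.card : ℝ) ^ (2 * α - 1) := by
  obtain ⟨μ, hprob, hLN, hE, -⟩ := worst_average hS hn h4
  have h1 := hall μ hLN (S.card ^ 2) (by rw [Nat.even_pow]; exact ⟨hn, two_ne_zero⟩)
    (by nlinarith)
  have h2 := hE.trans (mul_le_mul_right h1 40)
  have hn0 : (0 : ℝ) < S.card := by exact_mod_cast (by omega : 0 < S.card)
  have h3 : (40 : ℝ≥0∞) = ENNReal.ofReal 40 := by norm_num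
  rw [h3, ← ENNReal.ofReal_mul (by norm_num), ← ENNReal.ofReal_natCast] at h2
  have h5 := (ENNReal.ofReal_le_ofReal_iff (by positivity)).1 h2
  push_cast at h5
  have h6 : ((S.card : ℝ) ^ 2) ^ α = S.card * (S.card : ℝ) ^ (2 * α - 1) := by
    rw [← Real.rpow_natCast, ← Real.rpow_mul hn0.le, Real.rpow_sub_one hn0.ne']
    push_cast
    field_simp
  rw [h6] at h5
  have h7 : (S.card : ℝ) * ({L | IsBisector S L}.ncard : ℝ) ≤
      S.card * (40 * B * (S.card : ℝ) ^ (2 * α - 1)) := by
    refine h5.trans (le_of_eq ?_)
    ring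
  exact le_of_mul_le_mul_left h7 hn0

open scoped Classical in
/-- the average case from the worst case -/
theorem average_of_worst {K : ℝ} {n : ℕ}
    (hall : ∀ S : Finset (ℝ × ℝ), NoThree S → S.card = n → ({L | IsBisector S L}.ncard : ℝ) ≤ K)
    {μ : Measure (ℝ × ℝ)} [IsProbabilityMeasure μ]
    (hμ : ∀ a b c : ℝ, (a ≠ 0 ∨ b ≠ 0) → μ {y | a * y.1 + b * y.2 = c} = 0) :
    ∫⁻ X, ({L | IsBisector (univ.image X) L}.ncard : ℝ≥0∞) ∂Measure.pi (fun _ : Fin n => μ) ≤
      ENNReal.ofReal K := by
  calc ∫⁻ X, ({L | IsBisector (univ.image X) L}.ncard : ℝ≥0∞) ∂Measure.pi (fun _ : Fin n => μ)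
      ≤ ∫⁻ _, ENNReal.ofReal K ∂Measure.pi (fun _ : Fin n => μ) := by
        apply lintegral_mono_ae
        filter_upwards [Pool.Agent.H189R2.Iid.ae_GP hμ n] with P hP
        have hg := general_of_GP hP
        rw [← ENNReal.ofReal_natCast]
        apply ENNReal.ofReal_le_ofReal
        apply hall
        · intro p hp q hq r hr hpq hpr hqr
          obtain ⟨i, -, rfl⟩ := mem_image.1 hp
          obtain ⟨j, -, rfl⟩ := mem_image.1 hq
          obtain ⟨l, -, rfl⟩ := mem_image.1 hr
          exact hg.2 i j l (fun h => hpq (by rw [h])) (fun h => hpr (by rw [h]))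
            (fun h => hqr (by rw [h]))
        · rw [card_image_of_injective _ hg.1, card_univ, Fintype.card_fin]
    _ = ENNReal.ofReal K := by
        rw [lintegral_const, measure_univ, mul_one]

open scoped Classical in
theorem result :
    (∃ C : ℝ, 0 < C ∧
      -- `n` independent random points with common law `μ`, without atoms
      (∀ (μ : Measure (ℝ × ℝ)) [IsProbabilityMeasure μ], (∀ x, μ {x} = 0) → ∀ n : ℕ, Even n →
        AEMeasurable (fun X : Fin n → ℝ × ℝ =>
          ({L | IsBisector (univ.image X) L}.ncard : ℝ≥0∞)) (Measure.pi (fun _ : Fin n => μ)) ∧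
        ∫⁻ X, ({L | IsBisector (univ.image X) L}.ncard : ℝ≥0∞) ∂Measure.pi (fun _ : Fin n => μ) ≤
          ENNReal.ofReal (C * (n : ℝ) ^ (7 / 6 : ℝ))) ∧
      -- the average number of bisectors of the `n`-element subsets of an arbitrary larger set
      (∀ S : Finset (ℝ × ℝ), ∀ n : ℕ, Even n → n < S.card →
        ((∑ Q ∈ S.powersetCard n, {L | IsBisector Q L}.ncard : ℕ) : ℝ) ≤
          C * Real.sqrt ((S.card : ℝ) / ((S.card : ℝ) - n)) * (n : ℝ) ^ (7 / 6 : ℝ) *
            (S.card.choose n))) ∧
    -- every set has a law, and finite sets, which are almost as bad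
    (∀ S : Finset (ℝ × ℝ), NoThree S → Even S.card → 4 ≤ S.card →
      ∃ μ : Measure (ℝ × ℝ), IsProbabilityMeasure μ ∧
        (∀ a b c : ℝ, (a ≠ 0 ∨ b ≠ 0) → μ {y | a * y.1 + b * y.2 = c} = 0) ∧
        ((S.card * {L | IsBisector S L}.ncard : ℕ) : ℝ≥0∞) ≤
          40 * ∫⁻ X, ({L | IsBisector (univ.image X) L}.ncard : ℝ≥0∞)
            ∂Measure.pi (fun _ : Fin (S.card ^ 2) => μ) ∧
        ∀ m : ℕ, S.card ^ 2 ≤ m → ∃ T : Finset (ℝ × ℝ), NoThree T ∧ T.card = m ∧
          m.choose (S.card ^ 2) * (S.card * {L | IsBisector S L}.ncard) ≤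
            40 * ∑ Q ∈ T.powersetCard (S.card ^ 2), {L | IsBisector Q L}.ncard) ∧
    -- the worst case from the average case
    (∀ B α : ℝ, 0 ≤ B →
      (∀ (μ : Measure (ℝ × ℝ)) [IsProbabilityMeasure μ],
        (∀ a b c : ℝ, (a ≠ 0 ∨ b ≠ 0) → μ {y | a * y.1 + b * y.2 = c} = 0) →
        ∀ n : ℕ, Even n → 4 ≤ n →
        ∫⁻ X, ({L | IsBisector (univ.image X) L}.ncard : ℝ≥0∞) ∂Measure.pi (fun _ : Fin n => μ) ≤
          ENNReal.ofReal (B * (n : ℝ) ^ α)) →
      ∀ S : Finset (ℝ × ℝ), NoThree S → Even S.card → 4 ≤ S.card →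
        ({L | IsBisector S L}.ncard : ℝ) ≤ 40 * B * (S.card : ℝ) ^ (2 * α - 1)) ∧
    -- the bound `n ^ (1 + ε)` in the worst case and in the average case
    ((∀ ε : ℝ, 0 < ε → ∃ B : ℝ, ∀ S : Finset (ℝ × ℝ), NoThree S → Even S.card → 4 ≤ S.card →
        ({L | IsBisector S L}.ncard : ℝ) ≤ B * (S.card : ℝ) ^ (1 + ε)) ↔
      ∀ ε : ℝ, 0 < ε → ∃ B : ℝ, ∀ (μ : Measure (ℝ × ℝ)) [IsProbabilityMeasure μ],
        (∀ a b c : ℝ, (a ≠ 0 ∨ b ≠ 0) → μ {y | a * y.1 + b * y.2 = c} = 0) →
        ∀ n : ℕ, Even n → 4 ≤ n →
        ∫⁻ X, ({L | IsBisector (univ.image X) L}.ncard : ℝ≥0∞) ∂Measure.pi (fun _ : Fin n => μ) ≤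
          ENNReal.ofReal (B * (n : ℝ) ^ (1 + ε))) ∧
    -- random points with many bisectors
    (∀ᶠ n : ℕ in Filter.atTop, Even n →
      ∃ μ : Measure (ℝ × ℝ), IsProbabilityMeasure μ ∧
        (∀ a b c : ℝ, (a ≠ 0 ∨ b ≠ 0) → μ {y | a * y.1 + b * y.2 = c} = 0) ∧
        ENNReal.ofReal ((n : ℝ) ^ (2 + Real.exp (-3 * √(Real.log (Real.log n))))) ≤
          40 * ∫⁻ X, ({L | IsBisector (univ.image X) L}.ncard : ℝ≥0∞)
            ∂Measure.pi (fun _ : Fin (n ^ 2) => μ)) := by
  have hSS := Pool.Agent.H189R2.Iid.SS_ge
  refine ⟨⟨2 * (20928 * Pool.Agent.H189R2.Iid.SS), by positivity, ?_, ?_⟩, ?_, ?_, ?_, laws_many⟩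
  · intro μ _ hμ n hn
    exact expect_all hμ hn
  · intro S n hn h
    refine (avg_bound_all S hn h).trans ?_
    have h1 : 0 ≤ Real.sqrt ((S.card : ℝ) / ((S.card : ℝ) - n)) * (n : ℝ) ^ (7 / 6 : ℝ) *
        (S.card.choose n) := by positivity
    nlinarith
  · intro S hS hn h4
    exact worst_average hS hn h4
  · intro B α hB hall S hS hn h4
    exact worst_of_average hB hall hS hn h4
  · refine ⟨fun h ε hε => ?_, fun h ε hε => ?_⟩
    · obtain ⟨B, hB⟩ := h ε hε
      refine ⟨B, ?_⟩
      intro μ _ hμ n hn h4
      refine average_of_worst ?_ hμ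
      intro S hS hc
      have := hB S hS (by rw [hc]; exact hn) (by rw [hc]; exact h4)
      rwa [hc] at this
    · obtain ⟨B, hB⟩ := h (ε / 2) (by positivity)
      refine ⟨40 * max B 0, fun S hS hn h4 => ?_⟩
      have h1 := worst_of_average (B := max B 0) (α := 1 + ε / 2) (le_max_right _ _)
        (fun μ _ hμ n hn h4 => (hB μ hμ n hn h4).trans (ENNReal.ofReal_le_ofReal
          (mul_le_mul_of_nonneg_right (le_max_left _ _) (by positivity)))) hS hn h4
      have h2 : 2 * (1 + ε / 2) - 1 = 1 + ε := by ring
      rwa [h2] at h1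

end Pool.Agent.Results.MP_e17eac_co.RandomPointSets
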