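import Pool.Agent.L0h67.HL.Bis

/-!
# Smoothed analysis of halving lines: the expected number is linear

Independent random points `P_1, …, P_n` of the strip `|y| ≤ M`, not necessarily identically
distributed, such that the law of `P_i` is dominated by `τ_i ⊗ Lebesgue measure` with
`τ_i (ℝ) ≤ R` (for instance: a joint density `f_i (x, y) ≤ ρ_i (x)` with `∫ ρ_i ≤ R`; or arbitrary
fixed abscissas and independent heights with densities at most `R`), have on average at most
`8 M R n + 1` bisectors, and on average at most `8 M R n` pairs of points with exactly `k` points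
below their line, for every `k`.

So if every point of an arbitrary sequence of `n` points of the strip `|y| ≤ H` is moved to a
random point of the square of side `2 σ` around it, then the expected number of bisectors is at
most `4 (H + σ) n / σ + 1`.

The conditional expectation over the intercept of one dual line (`inner_line` in the starting
library) is combined with a measurable choice of the `(k+1)`-st smallest slope.
-/

set_option autoImplicit false

namespace Pool.Agent.Results.MP_e17eac_co.SmoothedPointSets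

open Finset MeasureTheory Pool.Agent.R117.KR Pool.Agent.L0h67.HL
open scoped ENNReal

open scoped Classical in
theorem bound {n : ℕ} (μ : Fin n → Measure (ℝ × ℝ)) [∀ i, IsProbabilityMeasure (μ i)]
    (τ : Fin n → Measure ℝ) {M R : ℝ} (hM : 0 < M) (hτ : ∀ i, τ i Set.univ ≤ ENNReal.ofReal R)
    (hdom : ∀ i, μ i ≤ (τ i).prod volume) (hstrip : ∀ i, ∀ᵐ p ∂μ i, |p.2| ≤ M) :
    (∀ᵐ P ∂Measure.pi μ, Function.Injective P ∧
      {L | IsBisector (univ.image P) L}.ncard ≤ (cross (xs P) (ys P) (n / 2 - 1)).ncard + 1) ∧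
    (∀ k : ℕ, Measurable (fun P : Fin n → ℝ × ℝ => (cross (xs P) (ys P) k).ncard) ∧
      ∫⁻ P, ((cross (xs P) (ys P) k).ncard : ℝ≥0∞) ∂Measure.pi μ ≤
        n * ENNReal.ofReal (8 * M * R)) ∧
    ∫⁻ P, ({L | IsBisector (univ.image P) L}.ncard : ℝ≥0∞) ∂Measure.pi μ ≤
      n * ENNReal.ofReal (8 * M * R) + 1 := by
  have h : Dom μ τ M R := ⟨hτ, hdom, hstrip⟩
  have h1 : ∀ᵐ P ∂Measure.pi μ, Function.Injective P ∧
      {L | IsBisector (univ.image P) L}.ncard ≤ (cross (xs P) (ys P) (n / 2 - 1)).ncard + 1 := by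
    filter_upwards [ae_inj h] with P hP
    have hi : Function.Injective P := fun i j hij => by
      by_contra hne
      exact hP i j hne hij
    exact ⟨hi, bisectors_le_cross hi⟩
  refine ⟨h1, fun k => ⟨measurable_cross' k, smooth_cross h hM k⟩, ?_⟩
  calc ∫⁻ P, ({L | IsBisector (univ.image P) L}.ncard : ℝ≥0∞) ∂Measure.pi μ
      ≤ ∫⁻ P, (((cross (xs P) (ys P) (n / 2 - 1)).ncard : ℝ≥0∞) + 1) ∂Measure.pi μ := by
        apply lintegral_mono_ae
        filter_upwards [h1] with P hP
        exact_mod_cast hP.2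
    _ = ∫⁻ P, ((cross (xs P) (ys P) (n / 2 - 1)).ncard : ℝ≥0∞) ∂Measure.pi μ + 1 := by
        rw [lintegral_add_right _ measurable_const]
        simp
    _ ≤ _ := add_le_add (smooth_cross h hM _) le_rfl

open scoped Classical in
theorem result :
    -- independent random points with laws dominated by `τ i ⊗ Lebesgue` in a strip
    (∀ (n : ℕ) (μ : Fin n → Measure (ℝ × ℝ)) [∀ i, IsProbabilityMeasure (μ i)]
      (τ : Fin n → Measure ℝ) (M R : ℝ), 0 < M → (∀ i, τ i Set.univ ≤ ENNReal.ofReal R) →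
      (∀ i, μ i ≤ (τ i).prod volume) → (∀ i, ∀ᵐ p ∂μ i, |p.2| ≤ M) →
      (∀ᵐ P ∂Measure.pi μ, Function.Injective P ∧
        {L | IsBisector (univ.image P) L}.ncard ≤ (cross (xs P) (ys P) (n / 2 - 1)).ncard + 1) ∧
      (∀ k : ℕ, Measurable (fun P : Fin n → ℝ × ℝ => (cross (xs P) (ys P) k).ncard) ∧
        ∫⁻ P, ((cross (xs P) (ys P) k).ncard : ℝ≥0∞) ∂Measure.pi μ ≤
          n * ENNReal.ofReal (8 * M * R)) ∧
      ∫⁻ P, ({L | IsBisector (univ.image P) L}.ncard : ℝ≥0∞) ∂Measure.pi μ ≤
        n * ENNReal.ofReal (8 * M * R) + 1) ∧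
    -- uniform noise in squares of side `2 σ` around arbitrary points of the strip `|y| ≤ H`
    (∀ (n : ℕ) (c : Fin n → ℝ × ℝ) (H σ : ℝ), 0 ≤ H → 0 < σ → (∀ i, |(c i).2| ≤ H) →
      ∫⁻ P, ({L | IsBisector (univ.image P) L}.ncard : ℝ≥0∞)
        ∂Measure.pi (fun i => ProbabilityTheory.cond volume
          (Set.Icc ((c i).1 - σ) ((c i).1 + σ) ×ˢ Set.Icc ((c i).2 - σ) ((c i).2 + σ))) ≤
        n * ENNReal.ofReal (4 * (H + σ) / σ) + 1) := by
  refine ⟨?_, ?_⟩
  · intro n μ _ τ M R hM hτ hdom hstrip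
    exact bound μ τ hM hτ hdom hstrip
  · intro n c H σ hH hσ hc
    have h := dom_square c hσ hc
    have hvol : ∀ i, (volume (Set.Icc ((c i).1 - σ) ((c i).1 + σ) ×ˢ
        Set.Icc ((c i).2 - σ) ((c i).2 + σ)) : ℝ≥0∞) = ENNReal.ofReal (2 * σ * (2 * σ)) := by
      intro i
      rw [Measure.volume_eq_prod, Measure.prod_prod, Real.volume_Icc, Real.volume_Icc,
        ← ENNReal.ofReal_mul (by linarith)]
      congr 1
      ring
    have hprob : ∀ i, IsProbabilityMeasure (ProbabilityTheory.cond volume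
        (Set.Icc ((c i).1 - σ) ((c i).1 + σ) ×ˢ Set.Icc ((c i).2 - σ) ((c i).2 + σ))) := by
      intro i
      apply ProbabilityTheory.cond_isProbabilityMeasure_of_finite
      · rw [hvol]
        exact (ENNReal.ofReal_pos.2 (by positivity)).ne'
      · rw [hvol]
        exact ENNReal.ofReal_ne_top
    have hb := (bound _ _ (by linarith : 0 < H + σ) h.mass h.dom h.strip).2.2
    have e : 8 * (H + σ) * (1 / (2 * σ)) = 4 * (H + σ) / σ := by
      field_simp
      ring
    rw [e] at hb
    exact hb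

end Pool.Agent.Results.MP_e17eac_co.SmoothedPointSets
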